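import Mathlib

set_option autoImplicit false

/-!
# Families of density matrices from families of unit vectors
-/

namespace Pool.Agent.L5helper31.SIC

open Matrix Finset
open scoped ComplexOrder

/-- `|⟨v, w⟩|²` -/
noncomputable def ov {ι : Type} [Fintype ι] (v w : ι → ℂ) : ℝ := ‖star v ⬝ᵥ w‖ ^ 2

/-- the projection `v v^*` -/
noncomputable def pr {ι : Type} (v : ι → ℂ) : Matrix ι ι ℂ := vecMulVec v (star v)

theorem pr_psd {ι : Type} [Fintype ι] (v : ι → ℂ) : (pr v).PosSemidef :=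
  posSemidef_vecMulVec_self_star v

theorem pr_trace {ι : Type} [Fintype ι] (v : ι → ℂ) (hv : star v ⬝ᵥ v = 1) :
    (pr v).trace = 1 := by
  rw [pr, trace_vecMulVec, dotProduct_comm, hv]

theorem pr_mul_trace {ι : Type} [Fintype ι] (v w : ι → ℂ) :
    (pr v * pr w).trace = ((ov v w : ℝ) : ℂ) := by
  rw [pr, pr, vecMulVec_mul_vecMulVec, vecMulVec_smul, trace_smul, trace_vecMulVec, ov]
  have h : v ⬝ᵥ star w = star (star v ⬝ᵥ w) := by
    rw [star_dotProduct, star_star, dotProduct_comm]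
  rw [h, smul_eq_mul]
  have := Complex.mul_conj (star v ⬝ᵥ w)
  simp only [Complex.star_def] at *
  rw [this, Complex.normSq_eq_norm_sq]

theorem tr_equiv {ι κ : Type} [Fintype ι] [Fintype κ] (A : Matrix ι ι ℂ) (e : κ ≃ ι) :
    (A.submatrix e e).trace = A.trace := by
  simp only [trace, diag_apply, submatrix_apply]
  exact e.sum_comp (fun i => A i i)

theorem build {ι κ : Type} [Fintype ι] [DecidableEq ι] [Fintype κ] [DecidableEq κ] (d : ℕ)
    (hι : Fintype.card ι = d) (hκ : Fintype.card κ = d ^ 2) (m : ℕ) (w : Fin m → ℝ)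
    (hw : ∀ j, 0 ≤ w j) (hsum : ∑ j, w j = 1) (v : κ → Fin m → ι → ℂ)
    (hv : ∀ k j, star (v k j) ⬝ᵥ (v k j) = 1) (s t : ℝ)
    (hs : ∀ k, ∑ j, ∑ l, w j * w l * ov (v k j) (v k l) = s)
    (ht : ∀ k k', k ≠ k' → ∑ j, ∑ l, w j * w l * ov (v k j) (v k' l) = t) :
    ∃ A : Fin (d ^ 2) → Matrix (Fin d) (Fin d) ℂ,
      (∀ i, (A i).PosSemidef ∧ (A i).trace = 1 ∧ (A i).rank ≤ m ∧
        (A i * A i).trace = (s : ℂ)) ∧
      ∀ i j, i ≠ j → (A i * A j).trace = (t : ℂ) := by
  classical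
  let e : Fin d ≃ ι := (Fintype.equivFinOfCardEq hι).symm
  let f : Fin (d ^ 2) ≃ κ := (Fintype.equivFinOfCardEq hκ).symm
  let B : κ → Matrix ι ι ℂ := fun k => ∑ j, ((w j : ℝ) : ℂ) • pr (v k j)
  have hBpsd : ∀ k, (B k).PosSemidef := fun k =>
    posSemidef_sum _ fun j _ => (pr_psd (v k j)).smul (by exact_mod_cast hw j)
  have hBtr : ∀ k, (B k).trace = 1 := by
    intro k
    simp only [B, trace_sum, trace_smul, pr_trace _ (hv k _), smul_eq_mul, mul_one]
    exact_mod_cast hsum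
  have hBrk : ∀ k, (B k).rank ≤ m := by
    intro k
    have h1 : B k = (Matrix.of fun (i : ι) (j : Fin m) => ((w j : ℝ) : ℂ) * v k j i) *
        (Matrix.of fun (j : Fin m) (i : ι) => star (v k j i)) := by
      ext i i'
      simp only [B, pr, Matrix.sum_apply, Matrix.smul_apply, vecMulVec_apply, Matrix.mul_apply,
        Matrix.of_apply, smul_eq_mul, Pi.star_apply, mul_assoc]
    rw [h1]
    exact (rank_mul_le_left _ _).trans ((rank_le_card_width _).trans (by simp))
  have hBB : ∀ k k', (B k * B k').trace =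
      ((∑ j, ∑ l, w j * w l * ov (v k j) (v k' l) : ℝ) : ℂ) := by
    intro k k'
    simp only [B, Finset.sum_mul, Finset.mul_sum, trace_sum]
    push_cast
    rw [Finset.sum_comm]
    refine Finset.sum_congr rfl fun j _ => Finset.sum_congr rfl fun l _ => ?_
    rw [Matrix.smul_mul, Matrix.mul_smul, trace_smul, trace_smul, pr_mul_trace, smul_eq_mul,
      smul_eq_mul]
    ring
  refine ⟨fun i => (B (f i)).submatrix e e, fun i => ⟨?_, ?_, ?_, ?_⟩, fun i j hij => ?_⟩
  · exact (hBpsd _).submatrix _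
  · rw [tr_equiv, hBtr]
  · rw [rank_submatrix]
    exact hBrk _
  · rw [submatrix_mul_equiv, tr_equiv, hBB, hs]
  · rw [submatrix_mul_equiv, tr_equiv, hBB, ht _ _ (f.injective.ne hij)]

end Pool.Agent.L5helper31.SIC
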