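import Mathlib

set_option autoImplicit false

/-!
# Quadratic functions on finite fields (all characteristics)

For a symmetric bimultiplicative function `B` on an abelian group `F` with values in `ℂˣ` there is
a function `q : F → ℂˣ` with `q x * q y = B x y * q (x + y)`.
-/

namespace Pool.Agent.L5helper31.SIC

open Finset

/-- roots exist in `ℂˣ` -/
theorem units_root (n : ℤ) (hn : n ≠ 0) (z : ℂˣ) : ∃ w : ℂˣ, w ^ n = z := by
  obtain ⟨w, hw⟩ := IsAlgClosed.exists_pow_nat_eq (z : ℂ) (n := n.natAbs) (Int.natAbs_pos.2 hn)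
  have hw0 : w ≠ 0 := by
    rintro rfl
    rw [zero_pow (Int.natAbs_ne_zero.2 hn)] at hw
    exact z.ne_zero hw.symm
  have h1 : (Units.mk0 w hw0) ^ n.natAbs = z := Units.ext (by simpa using hw)
  rcases Int.natAbs_eq n with h | h
  · refine ⟨Units.mk0 w hw0, ?_⟩
    rw [h, zpow_natCast, h1]
  · refine ⟨(Units.mk0 w hw0)⁻¹, ?_⟩
    rw [h, inv_zpow, zpow_neg, inv_inv, zpow_natCast, h1]

/-- The extension of `F` by `ℂˣ` defined by a symmetric bimultiplicative function. -/
structure Ext {F : Type} [AddCommGroup F] (B : F → F → ℂˣ) where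
  z : ℂˣ
  x : F

/-- `B` is a symmetric bimultiplicative function. -/
structure Bil {F : Type} [AddCommGroup F] (B : F → F → ℂˣ) : Prop where
  add : ∀ x y w, B (x + y) w = B x w * B y w
  symm : ∀ x y, B x y = B y x

namespace Bil

variable {F : Type} [AddCommGroup F] {B : F → F → ℂˣ} (h : Bil B)
include h

theorem add' (x y w : F) : B x (y + w) = B x y * B x w := by
  rw [h.symm, h.add, h.symm y, h.symm w]

theorem zero (w : F) : B 0 w = 1 := by
  have := h.add 0 0 w
  rw [add_zero] at this
  exact left_eq_mul.1 this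

theorem zero' (w : F) : B w 0 = 1 := by
  rw [h.symm, h.zero]

theorem neg (x w : F) : B (-x) w = (B x w)⁻¹ := by
  have := h.add (-x) x w
  rw [neg_add_cancel, h.zero] at this
  exact eq_inv_of_mul_eq_one_left this.symm

/-- the group structure -/
noncomputable abbrev grp : CommGroup (Ext B) where
  mul u v := ⟨u.z * v.z * B u.x v.x, u.x + v.x⟩
  one := ⟨1, 0⟩
  inv u := ⟨u.z⁻¹ * B u.x u.x, -u.x⟩
  mul_assoc u v w := by
    show Ext.mk _ _ = Ext.mk _ _
    congr 1
    · show u.z * v.z * B u.x v.x * w.z * B (u.x + v.x) w.x =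
        u.z * (v.z * w.z * B v.x w.x) * B u.x (v.x + w.x)
      rw [h.add, h.add']
      simp only [mul_comm, mul_left_comm]
    · exact add_assoc _ _ _
  one_mul u := by
    show Ext.mk (1 * u.z * B 0 u.x) (0 + u.x) = u
    rw [h.zero, one_mul, mul_one, zero_add]
  mul_one u := by
    show Ext.mk (u.z * 1 * B u.x 0) (u.x + 0) = u
    rw [h.zero', mul_one, mul_one, add_zero]
  inv_mul_cancel u := by
    show Ext.mk (u.z⁻¹ * B u.x u.x * u.z * B (-u.x) u.x) (-u.x + u.x) = Ext.mk 1 0
    rw [h.neg, neg_add_cancel]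
    congr 1
    rw [mul_assoc, mul_assoc, mul_comm u.z, ← mul_assoc (B u.x u.x), mul_inv_cancel, one_mul,
      inv_mul_cancel]
  mul_comm u v := by
    show Ext.mk (u.z * v.z * B u.x v.x) (u.x + v.x) = Ext.mk (v.z * u.z * B v.x u.x) (v.x + u.x)
    rw [h.symm, mul_comm u.z, add_comm]

theorem exists_quad : ∃ q : F → ℂˣ, ∀ x y, q x * q y = B x y * q (x + y) := by
  letI : CommGroup (Ext B) := h.grp
  letI : DivisibleBy (Additive ℂˣ) ℤ := divisibleByOfSMulRightSurj _ _
    fun {n} hn z => by
      obtain ⟨w, hw⟩ := units_root n hn z.toMul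
      exact ⟨Additive.ofMul w, by
        show n • Additive.ofMul w = z
        rw [← ofMul_zpow, hw]
        rfl⟩
  let i : Additive ℂˣ →+ Additive (Ext B) :=
    { toFun := fun z => Additive.ofMul ⟨z.toMul, 0⟩
      map_zero' := rfl
      map_add' := fun z w => by
        show Additive.ofMul (Ext.mk (z.toMul * w.toMul) 0) =
          Additive.ofMul (Ext.mk (z.toMul * w.toMul * B 0 0) (0 + 0))
        rw [h.zero, mul_one, add_zero] }
  have hi : Function.Injective i := by
    intro z w hzw
    have h1 : (Ext.mk (B := B) z.toMul (0 : F)) = Ext.mk w.toMul 0 := hzw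
    have h2 := congrArg Ext.z h1
    exact h2
  obtain ⟨ρ, hρ⟩ := (Module.Baer.of_divisible (Additive ℂˣ)).extension_property_addMonoidHom i hi
    (AddMonoidHom.id _)
  refine ⟨fun x => (ρ (Additive.ofMul ⟨1, x⟩)).toMul, fun x y => ?_⟩
  have h3 : ∀ z : Additive ℂˣ, ρ (i z) = z := fun z => DFunLike.congr_fun hρ z
  have h4 : (Additive.ofMul (Ext.mk (B := B) 1 x) + Additive.ofMul (Ext.mk (B := B) 1 y)) =
      i (Additive.ofMul (B x y)) + Additive.ofMul (Ext.mk (B := B) 1 (x + y)) := by
    show Additive.ofMul (Ext.mk (B := B) (1 * 1 * B x y) (x + y)) =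
      Additive.ofMul (Ext.mk (B := B) (B x y * 1 * B 0 (x + y)) (0 + (x + y)))
    rw [h.zero, zero_add]
    simp
  have h5 := congrArg ρ h4
  rw [map_add, map_add, h3] at h5
  have h6 := congrArg Additive.toMul h5
  simpa using h6

end Bil

end Pool.Agent.L5helper31.SIC
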