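import Mathlib
import Pool.Agent.L5helper31.SIC.Build
import Pool.Agent.L5helper31.SIC.Quad

set_option autoImplicit false

/-!
# Rank two, prime power dimension
-/

namespace Pool.Agent.L5helper31.SIC

open Matrix Finset
open scoped ComplexOrder ComplexConjugate

theorem exists_primitive (F : Type) [Field F] [Fintype F] :
    ∃ ψ : AddChar F ℂ, ψ.IsPrimitive := by
  obtain ⟨ψ, hψ⟩ := (AddChar.exists_apply_ne_zero (a := (1 : F))).2 one_ne_zero
  refine ⟨ψ, AddChar.IsPrimitive.of_ne_one fun h => hψ ?_⟩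
  rw [h, AddChar.one_apply]

theorem norm_psi {F : Type} [Field F] [Fintype F] (ψ : AddChar F ℂ) (x : F) : ‖ψ x‖ = 1 :=
  AddChar.norm_apply ψ x

theorem conj_psi {F : Type} [Field F] [Fintype F] (ψ : AddChar F ℂ) (x : F) :
    conj (ψ x) = ψ (-x) := by
  rw [← AddChar.map_neg_eq_conj]

/-- quadratic functions -/
theorem exists_quadratic {F : Type} [Field F] [Fintype F] (ψ : AddChar F ℂ) (a : F) :
    ∃ l : F → ℂ, (∀ x, ‖l x‖ = 1) ∧ ∀ x y, l x * l y = ψ (a * x * y) * l (x + y) := by
  have hne : ∀ x, ψ x ≠ 0 := fun x h => by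
    have := norm_psi ψ x
    rw [h, norm_zero] at this
    exact zero_ne_one this
  let B : F → F → ℂˣ := fun x y => Units.mk0 (ψ (a * x * y)) (hne _)
  have hB : Bil B :=
    ⟨fun x y w => Units.ext (by
      show ψ (a * (x + y) * w) = ψ (a * x * w) * ψ (a * y * w)
      rw [← AddChar.map_add_eq_mul]
      congr 1
      ring), fun x y => Units.ext (by
      show ψ (a * x * y) = ψ (a * y * x)
      congr 1
      ring)⟩
  obtain ⟨q, hq⟩ := hB.exists_quad
  have h1 : ∀ x y, ((q x : ℂ)) * q y = ψ (a * x * y) * q (x + y) := fun x y => by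
    have := congrArg (Units.val) (hq x y)
    simpa [B] using this
  have h0 : (q 0 : ℂ) = 1 := by
    have := h1 0 0
    rw [mul_zero, AddChar.map_zero_eq_one, one_mul, add_zero] at this
    exact mul_left_cancel₀ (q 0).ne_zero (by rw [this, mul_one])
  have h2 : ∀ x y, ‖(q (x + y) : ℂ)‖ = ‖(q x : ℂ)‖ * ‖(q y : ℂ)‖ := fun x y => by
    rw [← norm_mul, h1, norm_mul, norm_psi, one_mul]
  have h3 : ∀ (n : ℕ) (x : F), ‖(q (n • x) : ℂ)‖ = ‖(q x : ℂ)‖ ^ n := by
    intro n x
    induction n with
    | zero => rw [zero_smul, h0, norm_one, pow_zero]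
    | succ n ih => rw [succ_nsmul, h2, ih, pow_succ]
  refine ⟨fun x => q x, fun x => ?_, h1⟩
  have h4 := h3 (Fintype.card F) x
  rw [card_nsmul_eq_zero, h0, norm_one] at h4
  exact (pow_eq_one_iff_of_nonneg (norm_nonneg _) Fintype.card_ne_zero).1 h4.symm

/-- the modulus of a quadratic Gauss sum, in all characteristics -/
theorem gauss {F : Type} [Field F] [Fintype F] [DecidableEq F] {ψ : AddChar F ℂ}
    (hψ : ψ.IsPrimitive) {c : F} (hc : c ≠ 0) (μ : F → ℂ) (h1 : ∀ x, ‖μ x‖ = 1)
    (h2 : ∀ x y, μ x * μ y = ψ (c * x * y) * μ (x + y)) :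
    ‖∑ x, μ x‖ ^ 2 = Fintype.card F := by
  have h0 : μ 0 = 1 := by
    have := h2 0 0
    rw [mul_zero, AddChar.map_zero_eq_one, one_mul, add_zero] at this
    have hne : μ 0 ≠ 0 := fun h => by simpa [h] using h1 0
    exact mul_left_cancel₀ hne (by rw [this, mul_one])
  have hμ : ∀ x, μ x * conj (μ x) = 1 := fun x => by
    rw [Complex.mul_conj, Complex.normSq_eq_norm_sq, h1]
    simp
  have key : ((‖∑ x, μ x‖ ^ 2 : ℝ) : ℂ) = (Fintype.card F : ℂ) := by
    rw [← Complex.normSq_eq_norm_sq, ← Complex.mul_conj, map_sum, Finset.sum_mul_sum,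
      Finset.sum_comm]
    calc ∑ y, ∑ x, μ x * conj (μ y) = ∑ y, ∑ s, μ (s + y) * conj (μ y) := by
          refine Finset.sum_congr rfl fun y _ => ?_
          exact (Equiv.sum_comp (Equiv.addRight y) (fun x => μ x * conj (μ y))).symm
      _ = ∑ y, ∑ s, μ s * ψ (y * (-(c * s))) := by
          refine Finset.sum_congr rfl fun y _ => Finset.sum_congr rfl fun s _ => ?_
          have h3 : μ (s + y) = ψ (-(c * s * y)) * (μ s * μ y) := by
            rw [h2, ← mul_assoc, ← AddChar.map_add_eq_mul, neg_add_cancel,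
              AddChar.map_zero_eq_one, one_mul]
          rw [h3, show -(c * s * y) = y * (-(c * s)) by ring]
          linear_combination (ψ (y * (-(c * s))) * μ s) * hμ y
      _ = ∑ s, μ s * ∑ y, ψ (y * (-(c * s))) := by
          rw [Finset.sum_comm]
          exact Finset.sum_congr rfl fun s _ => by rw [Finset.mul_sum]
      _ = ∑ s, μ s * (if s = 0 then (Fintype.card F : ℂ) else 0) := by
          refine Finset.sum_congr rfl fun s _ => ?_
          congr 1
          rw [AddChar.sum_mulShift _ hψ]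
          by_cases hs : s = 0
          · simp [hs]
          · simp [hs, hc]
      _ = Fintype.card F := by
          simp [h0]
  exact_mod_cast key

/-- the overlaps of the vectors of the unbiased bases -/
theorem inner_mub {F : Type} [Field F] [Fintype F] [DecidableEq F] {ψ : AddChar F ℂ}
    (hψ : ψ.IsPrimitive) (l : F → F → ℂ) (hl : ∀ a x, ‖l a x‖ = 1)
    (hl2 : ∀ a x y, l a x * l a y = ψ (a * x * y) * l a (x + y)) (a b a' b' : F) :
    ‖∑ y, conj (l a y * ψ (b * y)) * (l a' y * ψ (b' * y))‖ ^ 2 =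
      if a = a' then (if b = b' then (Fintype.card F : ℝ) ^ 2 else 0) else Fintype.card F := by
  have hμ : ∀ y, conj (l a y) * l a y = 1 := fun y => by
    rw [mul_comm, Complex.mul_conj, Complex.normSq_eq_norm_sq, hl]
    simp
  by_cases haa : a = a'
  · subst haa
    rw [if_pos rfl]
    have h1 : ∑ y, conj (l a y * ψ (b * y)) * (l a y * ψ (b' * y)) =
        ∑ y, ψ (y * (b' - b)) := by
      refine Finset.sum_congr rfl fun y _ => ?_
      rw [map_mul, conj_psi]
      calc conj (l a y) * ψ (-(b * y)) * (l a y * ψ (b' * y))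
          = (conj (l a y) * l a y) * (ψ (-(b * y)) * ψ (b' * y)) := by ring
        _ = ψ (y * (b' - b)) := by
          rw [hμ, one_mul, ← AddChar.map_add_eq_mul]
          congr 1
          ring
    rw [h1, AddChar.sum_mulShift _ hψ]
    by_cases hbb : b = b'
    · simp [hbb]
    · have : b' - b ≠ 0 := sub_ne_zero.2 (Ne.symm hbb)
      simp [hbb, this]
  · rw [if_neg haa]
    refine gauss hψ (sub_ne_zero.2 (Ne.symm haa)) _ (fun x => ?_) fun x y => ?_
    · rw [norm_mul, RCLike.norm_conj, norm_mul, norm_mul, hl, hl, norm_psi, norm_psi]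
      norm_num
    · have e1 : conj (l a x) * conj (l a y) = ψ (-(a * x * y)) * conj (l a (x + y)) := by
        rw [← map_mul, hl2, map_mul, conj_psi]
      have e2 := hl2 a' x y
      simp only [map_mul, conj_psi]
      have e3 : ψ (-(b * x)) * ψ (-(b * y)) = ψ (-(b * (x + y))) := by
        rw [← AddChar.map_add_eq_mul]
        congr 1
        ring
      have e4 : ψ (b' * x) * ψ (b' * y) = ψ (b' * (x + y)) := by
        rw [← AddChar.map_add_eq_mul]
        congr 1
        ring
      have e5 : ψ (-(a * x * y)) * ψ (a' * x * y) = ψ ((a' - a) * x * y) := by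
        rw [← AddChar.map_add_eq_mul]
        congr 1
        ring
      calc conj (l a x) * ψ (-(b * x)) * (l a' x * ψ (b' * x)) *
            (conj (l a y) * ψ (-(b * y)) * (l a' y * ψ (b' * y)))
          = (conj (l a x) * conj (l a y)) * (l a' x * l a' y) *
            (ψ (-(b * x)) * ψ (-(b * y))) * (ψ (b' * x) * ψ (b' * y)) := by ring
        _ = (ψ (-(a * x * y)) * ψ (a' * x * y)) * (conj (l a (x + y)) * ψ (-(b * (x + y))) *
            (l a' (x + y) * ψ (b' * (x + y)))) := by
          rw [e1, e2, e3, e4]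
          ring
        _ = _ := by rw [e5]

/-- rank two simplices in prime power dimensions -/
theorem rank_two (F : Type) [Field F] [Fintype F] [DecidableEq F] :
    ∃ A : Fin (Fintype.card F ^ 2) → Matrix (Fin (Fintype.card F)) (Fin (Fintype.card F)) ℂ,
      ∃ s : ℝ, 1 - 2 / Real.sqrt (Fintype.card F) ≤ s ∧
      (∀ i, (A i).PosSemidef ∧ (A i).trace = 1 ∧ (A i).rank ≤ 2 ∧
        (A i * A i).trace = (s : ℂ)) ∧
      ∀ i j, i ≠ j → (A i * A j).trace =
        ((((Fintype.card F : ℝ) - s) / ((Fintype.card F : ℝ) ^ 2 - 1) : ℝ) : ℂ) := by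
  obtain ⟨ψ, hψ⟩ := exists_primitive F
  choose l hl hl2 using exists_quadratic ψ
  set q : ℕ := Fintype.card F with hq
  have hq2 : 2 ≤ q := Fintype.one_lt_card
  set r : ℝ := Real.sqrt q with hr
  have hq0 : (0 : ℝ) ≤ q := Nat.cast_nonneg _
  have hrr : r * r = q := Real.mul_self_sqrt hq0
  have hr1 : 1 < r := by
    rw [hr, Real.lt_sqrt (by norm_num)]
    have : (2 : ℝ) ≤ q := by exact_mod_cast hq2
    linarith
  have hrC : ((r : ℝ) : ℂ) * r = (q : ℂ) := by exact_mod_cast hrr
  have hr0 : (r : ℂ) ≠ 0 := by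
    have : r ≠ 0 := by linarith
    exact_mod_cast this
  -- the vectors
  let v : F × F → Fin 2 → F → ℂ := fun k =>
    ![fun y => (r : ℂ)⁻¹ * (l k.1 y * ψ (k.2 * y)), Pi.single k.1 1]
  have hin : ∀ k k' : F × F, star (v k 0) ⬝ᵥ v k' 0 =
      (q : ℂ)⁻¹ * ∑ y, conj (l k.1 y * ψ (k.2 * y)) * (l k'.1 y * ψ (k'.2 * y)) := by
    intro k k'
    simp only [v, Matrix.cons_val_zero, dotProduct, Pi.star_apply, Complex.star_def]
    rw [Finset.mul_sum]
    refine Finset.sum_congr rfl fun y _ => ?_
    rw [map_mul, map_inv₀, Complex.conj_ofReal, ← hrC, mul_inv]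
    ring
  have ov00 : ∀ k k' : F × F, ov (v k 0) (v k' 0) =
      if k.1 = k'.1 then (if k.2 = k'.2 then 1 else 0) else (q : ℝ)⁻¹ := by
    intro k k'
    rw [ov, hin, norm_mul, mul_pow, inner_mub hψ l hl hl2]
    have hqq : (q : ℝ) ≠ 0 := by positivity
    rw [norm_inv, Complex.norm_natCast]
    split_ifs
    · rw [← hq]
      field_simp
    · simp
    · rw [← hq]
      field_simp
  have hv0 : ∀ (k : F × F) (y : F), ‖v k 0 y‖ ^ 2 = (q : ℝ)⁻¹ := by
    intro k y
    simp only [v, Matrix.cons_val_zero]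
    rw [norm_mul, norm_mul, hl, norm_psi, norm_inv, Complex.norm_real, Real.norm_eq_abs,
      abs_of_pos (by linarith), mul_one, mul_one, inv_pow, sq, hrr]
  have ov01 : ∀ k k' : F × F, ov (v k 0) (v k' 1) = (q : ℝ)⁻¹ := by
    intro k k'
    have : star (v k 0) ⬝ᵥ v k' 1 = star (v k 0 k'.1) := by
      simp only [v, Matrix.cons_val_zero, Matrix.cons_val_one, dotProduct_single, mul_one,
        Pi.star_apply]
    rw [ov, this, norm_star, hv0]
  have ov10 : ∀ k k' : F × F, ov (v k 1) (v k' 0) = (q : ℝ)⁻¹ := by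
    intro k k'
    have : star (v k 1) ⬝ᵥ v k' 0 = v k' 0 k.1 := by
      simp only [v, Matrix.cons_val_zero, Matrix.cons_val_one]
      rw [← Pi.single_star, star_one, single_dotProduct, one_mul]
    rw [ov, this, hv0]
  have ov11 : ∀ k k' : F × F, ov (v k 1) (v k' 1) = if k.1 = k'.1 then 1 else 0 := by
    intro k k'
    have : star (v k 1) ⬝ᵥ v k' 1 = if k.1 = k'.1 then 1 else 0 := by
      simp only [v, Matrix.cons_val_one, Matrix.cons_val_zero]
      rw [← Pi.single_star, star_one, single_dotProduct, one_mul, Pi.single_apply]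
    rw [ov, this]
    split_ifs <;> simp
  have hself : ∀ k j, star (v k j) ⬝ᵥ v k j = 1 := by
    intro k j
    fin_cases j
    · show star (v k 0) ⬝ᵥ v k 0 = 1
      have h1 : star (v k 0) ⬝ᵥ v k 0 = ((∑ y, ‖v k 0 y‖ ^ 2 : ℝ) : ℂ) := by
        rw [dotProduct]
        push_cast
        refine Finset.sum_congr rfl fun y _ => ?_
        rw [Pi.star_apply, Complex.star_def, mul_comm, Complex.mul_conj,
          Complex.normSq_eq_norm_sq]
        push_cast
        rfl
      rw [h1]
      simp only [hv0, Finset.sum_const, Finset.card_univ, nsmul_eq_mul, ← hq]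
      rw [mul_inv_cancel₀ (by positivity)]
      simp
    · show star (v k 1) ⬝ᵥ v k 1 = 1
      simp only [v, Matrix.cons_val_one, Matrix.cons_val_zero]
      rw [← Pi.single_star, star_one, single_dotProduct, one_mul, Pi.single_eq_same]
  set s : ℝ := (r ^ 2 - r + 2) / (r * (r + 1)) with hs
  have hrne : r ≠ 0 := by linarith
  have hr1ne : r + 1 ≠ 0 := by linarith
  have hr1ne' : r - 1 ≠ 0 := by linarith
  obtain ⟨A, hA1, hA2⟩ := build (ι := F) (κ := F × F) q hq.symm
    (by rw [Fintype.card_prod, sq]) 2 ![r / (r + 1), 1 / (r + 1)]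
    (by
      intro j
      fin_cases j
      · show 0 ≤ r / (r + 1)
        positivity
      · show 0 ≤ 1 / (r + 1)
        positivity)
    (by
      simp only [Fin.sum_univ_two, Matrix.cons_val_zero, Matrix.cons_val_one]
      field_simp)
    v hself s (((q : ℝ) - s) / ((q : ℝ) ^ 2 - 1))
    (by
      intro k
      simp only [Fin.sum_univ_two, Matrix.cons_val_zero, Matrix.cons_val_one, ov00, ov01, ov10,
        ov11, if_true]
      rw [← hrr, hs]
      field_simp
      ring)
    (by
      intro k k' hk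
      simp only [Fin.sum_univ_two, Matrix.cons_val_zero, Matrix.cons_val_one, ov00, ov01, ov10,
        ov11]
      have hd : (q : ℝ) ^ 2 - 1 = (r - 1) * (r + 1) * (r ^ 2 + 1) := by
        rw [← hrr]
        ring
      have hr2 : r ^ 2 + 1 ≠ 0 := by positivity
      rw [hd]
      by_cases h1 : k.1 = k'.1
      · have h2 : k.2 ≠ k'.2 := fun h => hk (Prod.ext h1 h)
        rw [if_pos h1, if_neg h2, if_pos h1, ← hrr, hs]
        field_simp
        ring
      · rw [if_neg h1, if_neg h1, ← hrr, hs]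
        field_simp
        ring)
  refine ⟨A, s, ?_, hA1, hA2⟩
  rw [hs, ← sub_nonneg]
  have : (r ^ 2 - r + 2) / (r * (r + 1)) - (1 - 2 / r) = 4 / (r * (r + 1)) := by
    field_simp
    ring
  rw [this]
  positivity

end Pool.Agent.L5helper31.SIC
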