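import Mathlib
import Pool.Agent.L5helper31.SIC.Two

set_option autoImplicit false

/-!
# Rank three, dimension one less than a prime power
-/

namespace Pool.Agent.L5helper31.SIC

open Matrix Finset
open scoped ComplexOrder ComplexConjugate

section

variable {F : Type} [Field F] [Fintype F] [DecidableEq F]

theorem sum_units (g : F → ℂ) (h0 : g 0 = 0) : ∑ u : Fˣ, g u = ∑ x, g x := by
  have h1 : ∑ x, g x = ∑ x : {x : F // x ≠ 0}, g x := by
    rw [← Finset.sum_subtype (univ.filter fun x : F => x ≠ 0) (by simp) g, Finset.sum_filter]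
    refine Finset.sum_congr rfl fun x _ => ?_
    by_cases hx : x = 0 <;> simp [hx, h0]
  rw [h1]
  exact Fintype.sum_equiv unitsEquivNeZero _ _ fun u => rfl

theorem gs_norm {ψ : AddChar F ℂ} (hψ : ψ.IsPrimitive) (c : F) (χ : MulChar F ℂ) :
    ‖gaussSum χ (ψ.mulShift c)‖ ^ 2 =
      if c = 0 then (if χ = 1 then (Fintype.card Fˣ : ℝ) ^ 2 else 0)
      else (if χ = 1 then 1 else (Fintype.card F : ℝ)) := by
  by_cases hc : c = 0
  · rw [if_pos hc, hc, AddChar.mulShift_zero]
    by_cases hχ : χ = 1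
    · rw [if_pos hχ, hχ, gaussSum_one_one, Complex.norm_natCast, Nat.card_eq_fintype_card]
    · rw [if_neg hχ, gaussSum_one_right hχ]
      simp
  · rw [if_neg hc]
    have h1 : ψ.mulShift c ≠ 1 := hψ hc
    by_cases hχ : χ = 1
    · rw [if_pos hχ, hχ, gaussSum_one_left h1]
      simp
    · rw [if_neg hχ]
      have h2 := gaussSum_mul_gaussSum_eq_card hχ (AddChar.IsPrimitive.of_ne_one h1)
      rw [← star_gaussSum_eq] at h2
      have h3 : ((‖gaussSum χ (ψ.mulShift c)‖ ^ 2 : ℝ) : ℂ) = (Fintype.card F : ℂ) := by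
        rw [← h2, Complex.star_def, Complex.mul_conj, Complex.normSq_eq_norm_sq]
      exact_mod_cast h3

theorem gs_sum (ψ : AddChar F ℂ) (c c' : F) (χ χ' : MulChar F ℂ) :
    ∑ u : Fˣ, conj (ψ (c * u) * χ u) * (ψ (c' * u) * χ' u) =
      gaussSum (χ⁻¹ * χ') (ψ.mulShift (c' - c)) := by
  rw [gaussSum, ← sum_units (fun x => (χ⁻¹ * χ') x * (ψ.mulShift (c' - c)) x)
    (by simp [MulChar.map_zero])]
  refine Finset.sum_congr rfl fun u _ => ?_
  rw [map_mul, conj_psi, ← Complex.star_def, MulChar.star_apply', MulChar.mul_apply,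
    AddChar.mulShift_apply, show (c' - c) * (u : F) = -(c * u) + c' * u by ring,
    AddChar.map_add_eq_mul]
  ring

theorem norm_chi (χ : MulChar F ℂ) (u : Fˣ) : ‖χ u‖ = 1 := by
  have h := MulChar.star_apply' χ (u : F)
  have h2 : χ (u : F) * star (χ (u : F)) = 1 := by
    rw [h, ← MulChar.mul_apply, mul_inv_cancel, MulChar.one_apply_coe]
  have h3 : ((‖χ u‖ ^ 2 : ℝ) : ℂ) = 1 := by
    rw [← h2, Complex.star_def, Complex.mul_conj, Complex.normSq_eq_norm_sq]
  have h4 : ‖χ u‖ ^ 2 = 1 := by exact_mod_cast h3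
  exact (pow_eq_one_iff_of_nonneg (norm_nonneg _) two_ne_zero).1 h4

end

/-- rank three simplices in dimension one less than a prime power -/
theorem rank_three (F : Type) [Field F] [Fintype F] [DecidableEq F]
    (hF : 3 ≤ Fintype.card F) (d : ℕ) (hd : d + 1 = Fintype.card F) :
    ∃ A : Fin (d ^ 2) → Matrix (Fin d) (Fin d) ℂ,
      ∃ s : ℝ, 1 - 4 / Real.sqrt (d + 1) ≤ s ∧
      (∀ i, (A i).PosSemidef ∧ (A i).trace = 1 ∧ (A i).rank ≤ 3 ∧
        (A i * A i).trace = (s : ℂ)) ∧
      ∀ i j, i ≠ j → (A i * A j).trace = ((((d : ℝ) - s) / ((d : ℝ) ^ 2 - 1) : ℝ) : ℂ) := by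
  classical
  obtain ⟨ψ, hψ⟩ := exists_primitive F
  have hcu : Fintype.card Fˣ = d := by
    rw [Fintype.card_units]
    omega
  have : Fintype (MulChar F ℂ) := Fintype.ofFinite _
  have hcm : Fintype.card (MulChar F ℂ) = d := by
    rw [← Nat.card_eq_fintype_card, MulChar.card_eq_card_units_of_hasEnoughRootsOfUnity,
      Nat.card_eq_fintype_card, hcu]
  have hd2 : 2 ≤ d := by omega
  have hdR : (2 : ℝ) ≤ d := by exact_mod_cast hd2
  set r : ℝ := Real.sqrt (d + 1) with hr
  have hrr : r * r = d + 1 := Real.mul_self_sqrt (by linarith)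
  have hr1 : 1 < r := by
    rw [hr, Real.lt_sqrt (by norm_num)]
    linarith
  have hdr : (d : ℝ) = (r - 1) * (r + 1) := by
    have : (r - 1) * (r + 1) = r * r - 1 := by ring
    rw [this, hrr]
    ring
  have hrne : r ≠ 0 := by linarith
  have hr1ne : r + 1 ≠ 0 := by linarith
  have hr2ne : r + 2 ≠ 0 := by linarith
  have hr1ne' : r - 1 ≠ 0 := by linarith
  have hq : (Fintype.card F : ℝ) = r ^ 2 := by
    rw [← hd, sq, hrr]
    push_cast
    ring
  set e : ℝ := Real.sqrt d with he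
  have hee : e * e = d := Real.mul_self_sqrt (by linarith)
  have he0 : 0 < e := Real.sqrt_pos.2 (by linarith)
  have heC : ((e : ℝ) : ℂ) * e = (d : ℂ) := by exact_mod_cast hee
  have hdC : (d : ℂ) ≠ 0 := by
    have : d ≠ 0 := by omega
    exact_mod_cast this
  -- general sums
  let w : F → MulChar F ℂ → Fˣ → ℂ := fun c χ u => (e : ℂ)⁻¹ * (ψ (c * u) * χ u)
  have hww : ∀ c χ c' χ', ov (w c χ) (w c' χ') = ((d : ℝ) ^ 2)⁻¹ *
      (if c = c' then (if χ = χ' then (d : ℝ) ^ 2 else 0) else (if χ = χ' then 1 else r ^ 2)) := by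
    intro c χ c' χ'
    have h1 : star (w c χ) ⬝ᵥ w c' χ' = (d : ℂ)⁻¹ *
        gaussSum (χ⁻¹ * χ') (ψ.mulShift (c' - c)) := by
      rw [← gs_sum, dotProduct, Finset.mul_sum]
      refine Finset.sum_congr rfl fun y _ => ?_
      rw [Pi.star_apply, Complex.star_def, map_mul, map_inv₀, Complex.conj_ofReal, ← heC, mul_inv]
      ring
    rw [ov, h1, norm_mul, mul_pow, gs_norm hψ, norm_inv, Complex.norm_natCast, inv_pow, hcu, hq]
    congr 1
    have e1 : c' - c = 0 ↔ c = c' := by
      rw [sub_eq_zero]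
      exact eq_comm
    have e2 : χ⁻¹ * χ' = 1 ↔ χ = χ' := by rw [inv_mul_eq_one]
    simp only [e1, e2]
  have hwn : ∀ c χ u, ‖w c χ u‖ ^ 2 = (d : ℝ)⁻¹ := by
    intro c χ u
    simp only [w]
    rw [norm_mul, norm_mul, norm_chi, norm_psi, norm_inv, Complex.norm_real, Real.norm_eq_abs,
      abs_of_pos he0, mul_one, mul_one, inv_pow, sq, hee]
  have hws : ∀ c χ, star (w c χ) ⬝ᵥ w c χ = 1 := by
    intro c χ
    have h1 : star (w c χ) ⬝ᵥ w c χ = ((∑ y, ‖w c χ y‖ ^ 2 : ℝ) : ℂ) := by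
      rw [dotProduct]
      push_cast
      refine Finset.sum_congr rfl fun y _ => ?_
      rw [Pi.star_apply, Complex.star_def, mul_comm, Complex.mul_conj,
        Complex.normSq_eq_norm_sq]
      push_cast
      rfl
    rw [h1]
    simp only [hwn, Finset.sum_const, Finset.card_univ, nsmul_eq_mul, hcu]
    rw [mul_inv_cancel₀ (by linarith)]
    simp
  have hwe : ∀ c χ (a : Fˣ), ov (w c χ) (Pi.single a 1) = (d : ℝ)⁻¹ := by
    intro c χ a
    rw [ov, dotProduct_single, mul_one, Pi.star_apply, norm_star, hwn]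
  have hew : ∀ c χ (a : Fˣ), ov (Pi.single a 1) (w c χ) = (d : ℝ)⁻¹ := by
    intro c χ a
    rw [ov, ← Pi.single_star, star_one, single_dotProduct, one_mul, hwn]
  have hee' : ∀ (a b : Fˣ), ov (Pi.single a 1) (Pi.single b 1) = if a = b then 1 else 0 := by
    intro a b
    rw [ov, ← Pi.single_star, star_one, single_dotProduct, one_mul, Pi.single_apply]
    split_ifs <;> simp
  have hes : ∀ (a : Fˣ), star (Pi.single a (1 : ℂ) : Fˣ → ℂ) ⬝ᵥ (Pi.single a 1) = 1 := by
    intro a
    rw [← Pi.single_star, star_one, single_dotProduct, one_mul, Pi.single_eq_same]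
  let v : Fˣ × MulChar F ℂ → Fin 3 → Fˣ → ℂ := fun k =>
    ![w k.1 k.2, Pi.single k.1 1, w 0 k.2]
  set α : ℝ := (r - 1) * (r + 1) / (r * (r + 2)) with hα
  set β : ℝ := 1 / (r + 2) with hβ
  set γ : ℝ := (r + 1) / (r * (r + 2)) with hγ
  set s : ℝ := α ^ 2 + β ^ 2 + γ ^ 2 + 2 * α * β / d + 2 * α * γ / d ^ 2 + 2 * β * γ / d with hs
  have hne0 : ∀ a : Fˣ, (a : F) ≠ 0 := fun a => a.ne_zero
  have hne0' : ∀ a : Fˣ, (0 : F) ≠ a := fun a => a.ne_zero.symm
  have hdne : (d : ℝ) ≠ 0 := by linarith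
  obtain ⟨A, hA1, hA2⟩ := build (ι := Fˣ) (κ := Fˣ × MulChar F ℂ) d hcu
    (by rw [Fintype.card_prod, sq, hcu, hcm]) 3 ![α, β, γ]
    (by
      have h1 : 0 ≤ r - 1 := by linarith
      intro j
      fin_cases j
      · show 0 ≤ (r - 1) * (r + 1) / (r * (r + 2))
        positivity
      · show 0 ≤ 1 / (r + 2)
        positivity
      · show 0 ≤ (r + 1) / (r * (r + 2))
        positivity)
    (by
      simp only [Fin.sum_univ_three, Matrix.cons_val_zero, Matrix.cons_val_one, Matrix.cons_val]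
      rw [hα, hβ, hγ]
      field_simp
      ring)
    v (by
      intro k j
      fin_cases j
      · exact hws _ _
      · exact hes _
      · exact hws _ _) s (((d : ℝ) - s) / ((d : ℝ) ^ 2 - 1))
    (by
      intro k
      simp only [v, Fin.sum_univ_three, Matrix.cons_val_zero, Matrix.cons_val_one,
        Matrix.cons_val, hww, hwe, hew, hee', if_true, if_neg (hne0 _), if_neg (hne0' _)]
      rw [hs]
      field_simp
      ring)
    (by
      intro k k' hk
      have hdd : (d : ℝ) ^ 2 - 1 ≠ 0 := by nlinarith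
      have hk1 : ((k.1 : F) = k'.1) ↔ k.1 = k'.1 := Units.val_inj
      simp only [v, Fin.sum_univ_three, Matrix.cons_val_zero, Matrix.cons_val_one,
        Matrix.cons_val, hww, hwe, hew, hee', if_neg (hne0 _), if_neg (hne0' _), hk1]
      rw [eq_div_iff hdd, hs, hα, hβ, hγ, hdr]
      by_cases h1 : k.1 = k'.1
      · have h2 : k.2 ≠ k'.2 := fun h => hk (Prod.ext h1 h)
        simp only [if_pos h1, if_neg h2, if_true]
        field_simp
        ring
      · by_cases h2 : k.2 = k'.2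
        · simp only [if_neg h1, if_pos h2, if_true]
          field_simp
          ring
        · simp only [if_neg h1, if_neg h2, if_true]
          field_simp
          ring)
  refine ⟨A, s, ?_, hA1, hA2⟩
  have h1 : 0 ≤ r - 1 := by linarith
  have hαp : 0 ≤ α := by positivity
  have hβp : 0 ≤ β := by positivity
  have hγp : 0 ≤ γ := by positivity
  have h2 : α ^ 2 ≤ s := by
    rw [hs]
    have : (0 : ℝ) < d := by linarith
    have e1 : 0 ≤ 2 * α * β / d := by positivity
    have e2 : 0 ≤ 2 * α * γ / (d : ℝ) ^ 2 := by positivity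
    have e3 : 0 ≤ 2 * β * γ / d := by positivity
    nlinarith [sq_nonneg β, sq_nonneg γ]
  have h3 : 1 - 2 / r ≤ α := by
    rw [hα, ← sub_nonneg]
    have : (r - 1) * (r + 1) / (r * (r + 2)) - (1 - 2 / r) = 3 / (r * (r + 2)) := by
      field_simp
      ring
    rw [this]
    positivity
  have h4 : 1 - 4 / r ≤ 2 * α - 1 := by
    have : 4 / r = 2 * (2 / r) := by ring
    rw [this]
    linarith
  nlinarith [sq_nonneg (α - 1)]

end Pool.Agent.L5helper31.SIC
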